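import Mathlib

/-!
A graph on 20 vertices whose clique graph is the 5-cycle, all of whose cliques have 7
vertices, and whose domatic number is at most 6.
-/

namespace Pool.Agent.Results.MP_72856e_co.FiveCliques

/-- `s` is a clique in the sense of the problem: a complete subgraph not properly contained
in another one. -/
def IsMaxClique {V : Type} (G : SimpleGraph V) (s : Set V) : Prop := Maximal G.IsClique s

/-- The minimum number of vertices of a maximal complete subgraph. -/
noncomputable def minCliqueSize {V : Type} (G : SimpleGraph V) : ℕ :=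
  sInf {k | ∃ s : Set V, IsMaxClique G s ∧ s.ncard = k}

/-- The clique graph: its vertices are the maximal complete subgraphs, two of them being
adjacent when they are distinct and have a common vertex. -/
def cliqueGraph {V : Type} (G : SimpleGraph V) : SimpleGraph {s : Set V // IsMaxClique G s} where
  Adj s t := s ≠ t ∧ (s.1 ∩ t.1).Nonempty
  symm := ⟨fun s t h => ⟨h.1.symm, by rw [Set.inter_comm]; exact h.2⟩⟩
  loopless := ⟨fun _ h => h.1 rfl⟩

/-- `D` is a dominating set of `G`. -/
def IsDominating {V : Type} (G : SimpleGraph V) (D : Set V) : Prop :=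
  ∀ v, v ∉ D → ∃ w ∈ D, G.Adj v w

/-- The domatic number: the largest `k` such that the vertex set has a partition into `k`
dominating sets. -/
noncomputable def domaticNumber {V : Type} (G : SimpleGraph V) : ℕ :=
  sSup {k | ∃ f : V → Fin k, ∀ c, IsDominating G {v | f v = c}}

/-- The vertices: `(i, 0), (i, 1), (i, 2)` are common to the cliques `i` and `i + 1`, while
`(i, 3)` is private to clique `i`. -/
abbrev W : Type := Fin 5 × Fin 4

/-- Membership in clique `i`. -/
def inQ (i : Fin 5) (v : W) : Bool := v.1 == i || (v.1 + 1 == i && v.2 != 3)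

/-- The graph. -/
def H : SimpleGraph W where
  Adj a b := a ≠ b ∧ ∃ i, inQ i a = true ∧ inQ i b = true
  symm := ⟨fun _ _ ⟨h, i, ha, hb⟩ => ⟨h.symm, i, hb, ha⟩⟩
  loopless := ⟨fun _ h => h.1 rfl⟩

/-- Clique `i` as a set. -/
def Q (i : Fin 5) : Set W := {v | inQ i v = true}

theorem Q_clique (i : Fin 5) : H.IsClique (Q i) := fun _ ha _ hb hne => ⟨hne, i, ha, hb⟩

theorem nbr_Y : ∀ (y : W) (i : Fin 5), inQ i y = true → i = y.1 ∨ i = y.1 + 1 := by
  decide

theorem nbr_X : ∀ (y : W) (i : Fin 5), y.2 = 3 → inQ i y = true → i = y.1 := by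
  decide

theorem sep_aux : ∀ (j : Fin 5) (z w : W),
    (inQ (j + 1) z && !inQ j z && inQ j w && !inQ (j + 1) w) = true →
    ∀ i, (inQ i z && inQ i w) = false := by
  decide

theorem sep (j : Fin 5) (z w : W) (h1 : inQ (j + 1) z = true) (h2 : inQ j z = false)
    (h3 : inQ j w = true) (h4 : inQ (j + 1) w = false) :
    z ≠ w ∧ ∀ i, ¬ (inQ i z = true ∧ inQ i w = true) := by
  have h := sep_aux j z w (by rw [h1, h2, h3, h4]; rfl)
  refine ⟨?_, ?_⟩
  · rintro rfl
    rw [h2] at h3
    exact Bool.noConfusion h3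
  · rintro i ⟨h5, h6⟩
    have := h i
    rw [h5, h6] at this
    exact Bool.noConfusion this

theorem clique_sub (s : Set W) (hs : H.IsClique s) : ∃ i, s ⊆ Q i := by
  rcases s.eq_empty_or_nonempty with rfl | ⟨y, hy⟩
  · exact ⟨0, Set.empty_subset _⟩
  have hN : ∀ z ∈ s, z ∈ Q y.1 ∨ z ∈ Q (y.1 + 1) := by
    intro z hz
    by_cases hzy : z = y
    · subst hzy
      left
      show inQ z.1 z = true
      simp [inQ]
    · obtain ⟨-, i, h1, h2⟩ := hs hz hy hzy
      rcases nbr_Y y i h2 with h | h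
      · left; rw [← h]; exact h1
      · right; rw [← h]; exact h1
  by_contra hc
  push Not at hc
  obtain ⟨z, hz, hzQ⟩ := Set.not_subset.mp (hc y.1)
  obtain ⟨w, hw, hwQ⟩ := Set.not_subset.mp (hc (y.1 + 1))
  have hz1 := (hN z hz).resolve_left hzQ
  have hw1 := (hN w hw).resolve_right hwQ
  have := sep y.1 z w hz1 (by simpa [Q] using hzQ) hw1 (by simpa [Q] using hwQ)
  obtain ⟨-, i, h1, h2⟩ := hs hz hw this.1
  exact this.2 i ⟨h1, h2⟩

theorem Q_inj (i j : Fin 5) (h : Q i ⊆ Q j) : i = j := by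
  have h1 : ((i, 3) : W) ∈ Q i := by
    show inQ i (i, 3) = true
    simp [inQ]
  have h2 : inQ j (i, 3) = true := h h1
  exact (nbr_X (i, 3) j rfl h2).symm

theorem Q_max (i : Fin 5) : IsMaxClique H (Q i) := by
  refine ⟨Q_clique i, ?_⟩
  intro s hs hle
  obtain ⟨j, hj⟩ := clique_sub s hs
  have hij : i = j := Q_inj i j (le_trans hle hj)
  rw [hij]
  exact hj

theorem max_eq (s : Set W) (hs : IsMaxClique H s) : ∃ i, s = Q i := by
  obtain ⟨i, hi⟩ := clique_sub s hs.prop
  exact ⟨i, Set.Subset.antisymm hi (hs.le_of_ge (Q_clique i) hi)⟩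

/-- The cliques, indexed by `Fin 5`. -/
def cl (i : Fin 5) : {s : Set W // IsMaxClique H s} := ⟨Q i, Q_max i⟩

theorem cl_bij : Function.Bijective cl := by
  constructor
  · intro i j h
    have : Q i = Q j := congrArg Subtype.val h
    exact Q_inj i j this.subset
  · rintro ⟨s, hs⟩
    obtain ⟨i, hi⟩ := max_eq s hs
    exact ⟨i, Subtype.ext hi.symm⟩

theorem meet_iff : ∀ i j : Fin 5, (i ≠ j ∧ ∃ v : W, inQ i v = true ∧ inQ j v = true) ↔
    (SimpleGraph.cycleGraph 5).Adj i j := by
  decide

theorem iso : Nonempty (SimpleGraph.cycleGraph 5 ≃g cliqueGraph H) := by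
  refine ⟨⟨Equiv.ofBijective cl cl_bij, ?_⟩⟩
  intro i j
  rw [← meet_iff]
  show cl i ≠ cl j ∧ (Q i ∩ Q j).Nonempty ↔ _
  rw [cl_bij.1.ne_iff]
  exact Iff.rfl

theorem Q_card (i : Fin 5) : (Q i).ncard = 7 := by
  have h : Q i = ((Finset.univ.filter (fun v : W => inQ i v = true) : Finset W) : Set W) := by
    ext v; simp [Q]
  rw [h, Set.ncard_coe_finset]
  have h' : ∀ i : Fin 5, (Finset.univ.filter (fun v : W => inQ i v = true)).card = 7 := by
    decide
  exact h' i

theorem minClique : minCliqueSize H = 7 := by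
  have h : {k | ∃ s : Set W, IsMaxClique H s ∧ s.ncard = k} = {7} := by
    ext k
    constructor
    · rintro ⟨s, hs, hk⟩
      obtain ⟨i, rfl⟩ := max_eq s hs
      rw [Q_card] at hk
      exact hk.symm
    · intro hk
      have : k = 7 := hk
      exact ⟨Q 0, Q_max 0, by rw [Q_card, this]⟩
  unfold minCliqueSize
  rw [h, csInf_singleton]

/-- Number of cliques containing a vertex. -/
theorem mult (v : W) : (∑ i : Fin 5, if inQ i v = true then 1 else 0) =
    (if v.2 = 3 then 1 else 2) := by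
  revert v; decide

/-- The weight of a vertex. -/
def wt (v : W) : ℕ := if v.2 = 3 then 2 else 3

theorem weight_ge (S : Finset W) (hS : ∀ i : Fin 5, ∃ v ∈ S, inQ i v = true) :
    8 ≤ ∑ v ∈ S, wt v := by
  have h1 : 5 ≤ ∑ i : Fin 5, ∑ v ∈ S, (if inQ i v = true then 1 else 0) := by
    have : ∀ i ∈ (Finset.univ : Finset (Fin 5)),
        1 ≤ ∑ v ∈ S, (if inQ i v = true then 1 else 0) := by
      intro i _
      obtain ⟨v, hv, hvi⟩ := hS i
      calc 1 = (if inQ i v = true then 1 else 0) := by rw [if_pos hvi]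
        _ ≤ _ := Finset.single_le_sum (f := fun v => if inQ i v = true then 1 else 0)
          (fun _ _ => Nat.zero_le _) hv
    calc 5 = ∑ _i : Fin 5, 1 := by simp
      _ ≤ _ := Finset.sum_le_sum this
  rw [Finset.sum_comm] at h1
  have h2 : ∑ v ∈ S, ∑ i : Fin 5, (if inQ i v = true then 1 else 0) =
      ∑ v ∈ S, (if v.2 = 3 then 1 else 2) := Finset.sum_congr rfl (fun v _ => mult v)
  rw [h2] at h1
  have h3 : ∑ v ∈ S, (if v.2 = 3 then 1 else 2) =
      (S.filter (fun v => v.2 = 3)).card * 1 + (S.filter (fun v => ¬ v.2 = 3)).card * 2 := by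
    rw [Finset.sum_ite, Finset.sum_const, Finset.sum_const]; simp
  have h4 : ∑ v ∈ S, wt v =
      (S.filter (fun v => v.2 = 3)).card * 2 + (S.filter (fun v => ¬ v.2 = 3)).card * 3 := by
    unfold wt
    rw [Finset.sum_ite, Finset.sum_const, Finset.sum_const]; simp
  omega

theorem total_weight : ∑ v : W, wt v = 55 := by decide

theorem domatic_le (k : ℕ) (f : W → Fin k) (hf : ∀ c, IsDominating H {v | f v = c}) :
    k ≤ 6 := by
  have h1 : ∀ c : Fin k, 8 ≤ ∑ v ∈ Finset.univ.filter (fun v => f v = c), wt v := by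
    intro c
    apply weight_ge
    intro i
    by_cases hc : f (i, 3) = c
    · exact ⟨(i, 3), by simp [hc], by simp [inQ]⟩
    · obtain ⟨w, hw, hadj⟩ := hf c (i, 3) hc
      obtain ⟨-, j, hj1, hj2⟩ := hadj
      have hj : j = i := nbr_X (i, 3) j rfl hj1
      rw [hj] at hj2
      exact ⟨w, by simpa using hw, hj2⟩
  have h2 : ∑ c : Fin k, ∑ v ∈ Finset.univ.filter (fun v => f v = c), wt v = 55 := by
    rw [Finset.sum_fiberwise]
    exact total_weight
  have h3 : ∑ _c : Fin k, 8 ≤ ∑ c : Fin k, ∑ v ∈ Finset.univ.filter (fun v => f v = c), wt v :=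
    Finset.sum_le_sum (fun c _ => h1 c)
  rw [h2, Finset.sum_const, Finset.card_univ, Fintype.card_fin] at h3
  simp only [smul_eq_mul] at h3
  omega

theorem result :
    ∃ (V : Type) (_ : Finite V) (G : SimpleGraph V) (n : ℕ),
      3 ≤ n ∧ Odd n ∧ Nonempty (SimpleGraph.cycleGraph n ≃g cliqueGraph G) ∧
        domaticNumber G < minCliqueSize G := by
  refine ⟨W, inferInstance, H, 5, by norm_num, by decide, iso, ?_⟩
  rw [minClique]
  have : domaticNumber H ≤ 6 := by
    apply csSup_le'
    rintro k ⟨f, hf⟩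
    exact domatic_le k f hf
  omega

end Pool.Agent.Results.MP_72856e_co.FiveCliques
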